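import Mathlib
import Pool.Agent.R935.Phylo.Code

set_option autoImplicit false

namespace Pool.Agent.H78.Uni
open Finset Pool.Agent.R935.Phylo

/-- place of block `b` in the second block order (perfect shuffle of the two halves). -/
def phi (h b : ℕ) : ℕ := if b < h then 2 * b else 2 * (b - h) + 1
def psi (h c : ℕ) : ℕ := if c % 2 = 0 then c / 2 else h + c / 2
/-- place of leaf `l` in the second leaf order. -/
def fpos (h l : ℕ) : ℕ := 5 * phi h (l / 5) + l % 5
def ipos (h p : ℕ) : ℕ := 5 * psi h (p / 5) + p % 5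

theorem psi_phi {h b : ℕ} (hb : b < 2 * h) : psi h (phi h b) = b := by
  unfold psi phi; split_ifs <;> omega

theorem phi_psi {h c : ℕ} (hc : c < 2 * h) : phi h (psi h c) = c := by
  unfold psi phi; split_ifs <;> omega

theorem phi_lt {h b : ℕ} (hb : b < 2 * h) : phi h b < 2 * h := by
  unfold phi; split_ifs <;> omega

theorem psi_lt {h c : ℕ} (hc : c < 2 * h) : psi h c < 2 * h := by
  unfold psi; split_ifs <;> omega

theorem fpos_lt {h l : ℕ} (hl : l < 10 * h) : fpos h l < 10 * h := by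
  have := phi_lt (h := h) (b := l / 5) (by omega)
  unfold fpos; omega

theorem ipos_lt {h l : ℕ} (hl : l < 10 * h) : ipos h l < 10 * h := by
  have := psi_lt (h := h) (c := l / 5) (by omega)
  unfold ipos; omega

theorem ipos_fpos {h l : ℕ} (hl : l < 10 * h) : ipos h (fpos h l) = l := by
  have h1 : fpos h l / 5 = phi h (l / 5) := by unfold fpos; omega
  have h2 : fpos h l % 5 = l % 5 := by unfold fpos; omega
  unfold ipos
  rw [h1, h2, psi_phi (by omega)]; omega

theorem fpos_ipos {h l : ℕ} (hl : l < 10 * h) : fpos h (ipos h l) = l := by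
  have h1 : ipos h l / 5 = psi h (l / 5) := by unfold ipos; omega
  have h2 : ipos h l % 5 = l % 5 := by unfold ipos; omega
  unfold fpos
  rw [h1, h2, phi_psi (by omega)]; omega

/-- the second leaf order. -/
def sg (m h : ℕ) (hm : m + 2 = 10 * h) : Equiv.Perm (Fin (m + 2)) where
  toFun l := ⟨fpos h l, (fpos_lt (by have := l.2; omega)).trans_eq hm.symm⟩
  invFun l := ⟨ipos h l, (ipos_lt (by have := l.2; omega)).trans_eq hm.symm⟩
  left_inv l := by ext; exact ipos_fpos (by have := l.2; omega)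
  right_inv l := by ext; exact fpos_ipos (by have := l.2; omega)

variable {m h : ℕ} (hm : m + 2 = 10 * h)

/-- `l` is a singleton class. -/
def Sg (P : Setoid (Fin (m + 2))) (l : Fin (m + 2)) : Prop := ∀ x, P l x → x = l
/-- `l` is the maximum of its class. -/
def Mx (P : Setoid (Fin (m + 2))) (l : Fin (m + 2)) : Prop := ∀ x, P l x → x ≤ l

theorem Sg.mx {P : Setoid (Fin (m + 2))} {l : Fin (m + 2)} (h : Sg P l) : Mx P l :=
  fun x hx => (h x hx).le

theorem T1 {P : Setoid (Fin (m + 2))} (hP : Conv 1 P) {i j l : Fin (m + 2)} (h1 : i < l)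
    (h2 : l < j) (h3 : P i j) : P i l ∨ Sg P l := hP i j l h1 h2 h3

theorem T1b {P : Setoid (Fin (m + 2))} (hP : Conv 1 P) {i j l : Fin (m + 2)}
    (h1 : (i : ℕ) / 5 < (l : ℕ) / 5)
    (h2 : (l : ℕ) / 5 < (j : ℕ) / 5) (h3 : P i j) : P i l ∨ Sg P l :=
  T1 hP (by rw [Fin.lt_def]; omega) (by rw [Fin.lt_def]; omega) h3

theorem T2 {P : Setoid (Fin (m + 2))} (hP : Conv (sg m h hm) P) {i j l : Fin (m + 2)}
    (h1 : phi h ((i : ℕ) / 5) < phi h ((l : ℕ) / 5))
    (h2 : phi h ((l : ℕ) / 5) < phi h ((j : ℕ) / 5)) (h3 : P i j) : P i l ∨ Sg P l := by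
  refine hP i j l ?_ ?_ h3
  · rw [Fin.lt_def]
    show fpos h i < fpos h l
    unfold fpos; omega
  · rw [Fin.lt_def]
    show fpos h l < fpos h j
    unfold fpos; omega

open Classical in
noncomputable def code (P : Setoid (Fin (m + 2))) (l : Fin (m + 2)) : Fin 3 :=
  if Sg P l then 0 else if Mx P l then 1 else 2

theorem code_zero {P : Setoid (Fin (m + 2))} {l : Fin (m + 2)} : code P l = 0 ↔ Sg P l := by
  unfold code; split_ifs <;> simp_all

theorem code_one {P : Setoid (Fin (m + 2))} {l : Fin (m + 2)} :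
    code P l = 1 ↔ ¬ Sg P l ∧ Mx P l := by
  unfold code; split_ifs <;> simp_all

theorem code_two {P : Setoid (Fin (m + 2))} {l : Fin (m + 2)} : code P l = 2 ↔ ¬ Mx P l := by
  unfold code
  split_ifs with h1 h2
  · simp [h1.mx]
  · simp [h2]
  · simp [h2]

theorem not_mx {P : Setoid (Fin (m + 2))} {l x : Fin (m + 2)} (h : P l x) (hl : l < x) :
    ¬ Mx P l := fun h2 => absurd (h2 x h) (not_le.2 hl)

theorem not_sg {P : Setoid (Fin (m + 2))} {l x : Fin (m + 2)} (h : P l x) (hl : l ≠ x) :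
    ¬ Sg P l := fun h2 => hl (h2 x h).symm

theorem code_inj {P Q : Setoid (Fin (m + 2))} (hP : Conv 1 P) (hQ : Conv 1 Q)
    (h : ∀ l, code P l = code Q l) : P = Q := by
  have h1 : sing P = sing Q := by
    ext x
    rw [mem_sing, mem_sing]
    show Sg P x ↔ Sg Q x
    rw [← code_zero, ← code_zero, h]
  have h2 : ends P = ends Q := by
    ext x
    rw [mem_ends, mem_ends, h1]
    have h3 : x ∉ sing Q → ((∀ y, P x y → y ≤ x) ↔ (∀ y, Q x y → y ≤ x)) := by
      intro _
      show Mx P x ↔ Mx Q x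
      have a1 := code_two (P := P) (l := x)
      have a2 := code_two (P := Q) (l := x)
      rw [h] at a1
      tauto
    constructor
    · rintro ⟨a, b, c⟩; exact ⟨a, (h3 a).1 b, c⟩
    · rintro ⟨a, b, c⟩; exact ⟨a, (h3 a).2 b, c⟩
  rw [recover P hP, recover Q hQ, h1, h2]

/-- weights. -/
theorem prod_weight (P : Setoid (Fin (m + 2))) (v : Fin 3 → ℕ) (a b : ℕ) (h0 : v 0 = a)
    (h1 : v 1 = a) (h2 : v 2 = b) :
    ∏ l, v (code P l) = a ^ (Nat.card (Quotient P)) * b ^ (m + 2 - Nat.card (Quotient P)) := by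
  classical
  have e1 : ∀ l, v (code P l) = if Mx P l then a else b := by
    intro l
    have h3 := code_two (P := P) (l := l)
    by_cases hM : Mx P l
    · rw [if_pos hM]
      have : code P l ≠ 2 := fun h => (h3.1 h) hM
      generalize code P l = c at this ⊢
      fin_cases c
      · exact h0
      · exact h1
      · exact absurd rfl this
    · rw [if_neg hM, h3.2 hM, h2]
  have h4 := card_filter_add_card_filter_not (s := (univ : Finset (Fin (m + 2)))) (fun l => Mx P l)
  rw [card_univ, Fintype.card_fin] at h4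
  have h5 : Nat.card (Quotient P) = #(univ.filter fun l : Fin (m + 2) => Mx P l) := by
    rw [card_quot]
    unfold Mx
    congr!
  rw [prod_congr rfl (fun l _ => e1 l), prod_ite, prod_const, prod_const, h5]
  congr 2
  omega

/-- leaf `o` of block `b`. -/
def lf (b : Fin (2 * h)) (o : Fin 5) : Fin (m + 2) := ⟨5 * b + o, by
  have := b.2; have := o.2; omega⟩

theorem lf_div (b : Fin (2 * h)) (o : Fin 5) : ((lf hm b o : Fin (m + 2)) : ℕ) / 5 = b := by
  have := o.2; simp only [lf]; omega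

theorem lf_mod (b : Fin (2 * h)) (o : Fin 5) : ((lf hm b o : Fin (m + 2)) : ℕ) % 5 = o := by
  have := o.2; simp only [lf]; omega

theorem lf_val (b : Fin (2 * h)) (o : Fin 5) : ((lf hm b o : Fin (m + 2)) : ℕ) = 5 * b + o := rfl

def bo : Fin (2 * h) × Fin 5 ≃ Fin (m + 2) where
  toFun p := lf hm p.1 p.2
  invFun l := (⟨l / 5, by have := l.2; omega⟩, ⟨l % 5, by omega⟩)
  left_inv p := by
    ext
    · exact lf_div hm p.1 p.2
    · exact lf_mod hm p.1 p.2
  right_inv l := by
    ext
    simp only [lf]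
    omega

theorem exists_lf (l : Fin (m + 2)) (b : Fin (2 * h)) (hb : (l : ℕ) / 5 = b) :
    ∃ o, lf hm b o = l := by
  refine ⟨⟨l % 5, by omega⟩, ?_⟩
  ext
  simp only [lf]
  omega

/-- block code. -/
noncomputable def bc (P : Setoid (Fin (m + 2))) (b : Fin (2 * h)) (o : Fin 5) : Fin 3 :=
  code P (lf hm b o)

theorem prod_bc (P : Setoid (Fin (m + 2))) (v : Fin 3 → ℕ) :
    ∏ b, ∏ o, v (bc hm P b o) = ∏ l, v (code P l) := by
  rw [← Fintype.prod_prod_type' (f := fun b o => v (bc hm P b o))]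
  exact Equiv.prod_comp (bo hm) (fun l => v (code P l))

theorem bc_inj {P Q : Setoid (Fin (m + 2))} (hP : Conv 1 P) (hQ : Conv 1 Q)
    (h : bc hm P = bc hm Q) : P = Q := by
  apply code_inj hP hQ
  intro l
  have := congrFun (congrFun h ((bo hm).symm l).1) ((bo hm).symm l).2
  unfold bc at this
  have h2 : lf hm ((bo hm).symm l).1 ((bo hm).symm l).2 = l := (bo hm).right_inv l
  rw [h2] at this
  exact this

/-- double counting. -/
theorem count_le {A ι κ : Type*} [DecidableEq ι] [DecidableEq κ] (s : Finset A) (W : ℕ)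
    (t : Finset ι) (F : ι → Finset κ) (wt : κ → ℕ) (o : A → ι) (g : A → κ)
    (ho : ∀ a ∈ s, o a ∈ t) (hg : ∀ a ∈ s, g a ∈ F (o a)) (hinj : Set.InjOn g s)
    (hW : ∀ a ∈ s, wt (g a) = W) : #s * W ≤ ∑ i ∈ t, ∑ x ∈ F i, wt x := by
  calc #s * W = ∑ a ∈ s, wt (g a) := by rw [sum_congr rfl hW, sum_const, smul_eq_mul]
    _ = ∑ x ∈ s.image (fun a => (⟨o a, g a⟩ : Σ _ : ι, κ)), wt x.2 := by
      rw [sum_image]
      intro a ha b hb hab
      apply hinj ha hb
      simp only [Sigma.mk.injEq, heq_eq_eq] at hab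
      exact hab.2
    _ ≤ ∑ x ∈ t.sigma F, wt x.2 := by
      apply sum_le_sum_of_subset
      intro x hx
      rw [mem_image] at hx
      obtain ⟨a, ha, rfl⟩ := hx
      rw [mem_sigma]
      exact ⟨ho a ha, hg a ha⟩
    _ = _ := sum_sigma _ _ _

end Pool.Agent.H78.Uni
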