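import Pool.Agent.H78.Uni.Base

set_option autoImplicit false

namespace Pool.Agent.H78.Uni
open Finset Pool.Agent.R935.Phylo

section pp
variable {h : ℕ}

def prv (_hh : 0 < h) (b : Fin (2 * h)) : Fin (2 * h) :=
  ⟨if (b : ℕ) = 0 then 2 * h - 1 else b - 1, by have := b.2; split_ifs <;> omega⟩
def pin (_hh : 0 < h) (b : Fin (2 * h)) : Fin (2 * h) :=
  ⟨if h ≤ (b : ℕ) then b - h else if (b : ℕ) = 0 then 2 * h - 1 else h + b - 1, by
    have := b.2; split_ifs <;> omega⟩

theorem prv_bij (hh : 0 < h) : Function.Bijective (prv hh) := by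
  rw [← Finite.injective_iff_bijective]
  intro a b hab
  have := Fin.ext_iff.1 hab
  have h1 := a.2
  have h2 := b.2
  simp only [prv] at this
  ext
  split_ifs at this <;> omega

theorem pin_bij (hh : 0 < h) : Function.Bijective (pin hh) := by
  rw [← Finite.injective_iff_bijective]
  intro a b hab
  have := Fin.ext_iff.1 hab
  have h1 := a.2
  have h2 := b.2
  simp only [pin] at this
  ext
  split_ifs at this <;> omega

end pp

variable {m h : ℕ} (hm : m + 2 = 10 * h)

/-- some class meets both halves of the block set. -/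
def Cross (h : ℕ) (P : Setoid (Fin (m + 2))) : Prop :=
  ∃ i j : Fin (m + 2), P i j ∧ (i : ℕ) / 5 < h ∧ h ≤ (j : ℕ) / 5

/-- some class is open after block `b`. -/
def Op (P : Setoid (Fin (m + 2))) (b : ℕ) : Prop :=
  ∃ i j : Fin (m + 2), P i j ∧ (i : ℕ) / 5 ≤ b ∧ b < (j : ℕ) / 5

def okE (c : Fin 5 → Fin 3) : Prop :=
  ∀ p q : Fin 5, p < q → c p = 1 → c q = 1 → ∃ t, p < t ∧ t < q ∧ c t = 2
def firstC (c : Fin 5 → Fin 3) : Prop := ∀ q, c q = 1 → ∃ t, t < q ∧ c t = 2
def lastE (c : Fin 5 → Fin 3) : Prop := ∀ q, c q = 2 → ∃ t, q < t ∧ c t = 1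
def lastC (c : Fin 5 → Fin 3) : Prop := (∃ q, c q = 2) ∧ ∀ q, c q = 1 → ∃ t, q < t ∧ c t = 2

instance (c) : Decidable (okE c) := by unfold okE; infer_instance
instance (c) : Decidable (firstC c) := by unfold firstC; infer_instance
instance (c) : Decidable (lastE c) := by unfold lastE; infer_instance
instance (c) : Decidable (lastC c) := by unfold lastC; infer_instance

def FD : Finset (Fin 5 → Fin 3) := univ.filter okE
def FU : Finset (Fin 5 → Fin 3) := univ.filter fun c => okE c ∧ firstC c ∧ lastC c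
def FA : Finset (Fin 5 → Fin 3) := univ.filter fun c => okE c ∧ firstC c ∧ lastE c

def wN (c : Fin 5 → Fin 3) : ℕ := ∏ o, (![1, 1, 2] : Fin 3 → ℕ) (c o)

theorem sumA : ∑ c ∈ FA, wN c = 153 := by decide +kernel
theorem sumU : ∑ c ∈ FU, wN c = 418 := by decide +kernel
theorem sumD : ∑ c ∈ FD, wN c = 780 := by decide +kernel

theorem dead1 {P : Setoid (Fin (m + 2))} (hF : Conv (sg m h hm) P) (hX : ¬ Cross h P) {b : ℕ}
    (hb : b < h) (hO : Op P b) {l : Fin (m + 2)} (hl : (l : ℕ) / 5 = h + b) : Sg P l := by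
  obtain ⟨i, j, hij, h1, h2⟩ := hO
  have hj : (j : ℕ) / 5 < h := by
    by_contra hcon
    exact hX ⟨i, j, hij, by omega, by omega⟩
  rcases T2 hm hF (i := i) (j := j) (l := l) (by unfold phi; split_ifs <;> omega)
    (by unfold phi; split_ifs <;> omega) hij with h3 | h3
  · exact absurd ⟨i, l, h3, by omega, by omega⟩ hX
  · exact h3

theorem dead2 {P : Setoid (Fin (m + 2))} (hF : Conv (sg m h hm) P) (hX : ¬ Cross h P) {b : ℕ}
    (hb : h ≤ b) (hb' : b + 1 < 2 * h) (hO : Op P b) {l : Fin (m + 2)}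
    (hl : (l : ℕ) / 5 = b - h + 1) : Sg P l := by
  obtain ⟨i, j, hij, h1, h2⟩ := hO
  have hi : h ≤ (i : ℕ) / 5 := by
    by_contra hcon
    exact hX ⟨i, j, hij, by omega, by omega⟩
  rcases T2 hm hF (i := i) (j := j) (l := l) (by unfold phi; split_ifs <;> omega)
    (by unfold phi; split_ifs <;> omega) hij with h3 | h3
  · exact absurd ⟨l, i, P.symm' h3, by omega, by omega⟩ hX
  · exact h3

theorem lf_lt {b : Fin (2 * h)} {p q : Fin 5} :
    (lf hm b p : Fin (m + 2)) < lf hm b q ↔ p < q := by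
  rw [Fin.lt_def, Fin.lt_def, lf_val, lf_val]; omega

theorem exists_lower {P : Setoid (Fin (m + 2))} {y : Fin (m + 2)} (h1 : code P y = 1) :
    ∃ z, P z y ∧ z < y := by
  obtain ⟨h2, h3⟩ := code_one.1 h1
  unfold Sg at h2
  push Not at h2
  obtain ⟨z, hz, hne⟩ := h2
  exact ⟨z, P.symm' hz, lt_of_le_of_ne (h3 z hz) hne⟩

theorem bc_okE {P : Setoid (Fin (m + 2))} (hT : Conv 1 P) (b : Fin (2 * h)) :
    okE (bc hm P b) := by
  intro p q hpq hp hq
  unfold bc at hp hq
  have hxy : (lf hm b p : Fin (m + 2)) < lf hm b q := (lf_lt hm).2 hpq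
  obtain ⟨z, hz, hzy⟩ := exists_lower hq
  obtain ⟨hs, hM⟩ := code_one.1 hp
  rcases lt_trichotomy z (lf hm b p) with h1 | h1 | h1
  · rcases T1 hT h1 hxy hz with h2 | h2
    · exact absurd hM (not_mx (P.trans' (P.symm' h2) hz) hxy)
    · exact absurd h2 hs
  · subst h1
    exact absurd hM (not_mx hz hxy)
  · have e1 := lf_val hm b p
    have e2 := lf_val hm b q
    obtain ⟨t, rfl⟩ := exists_lf hm z b (by
      rw [Fin.lt_def] at h1 hzy
      have := p.2; have := q.2; omega)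
    exact ⟨t, (lf_lt hm).1 h1, (lf_lt hm).1 hzy, code_two.2 (not_mx hz hzy)⟩

theorem bc_firstC {P : Setoid (Fin (m + 2))} (b : Fin (2 * h))
    (hO : ∀ b', b' + 1 = (b : ℕ) → ¬ Op P b') : firstC (bc hm P b) := by
  intro q hq
  unfold bc at hq
  obtain ⟨z, hz, hzy⟩ := exists_lower hq
  have e2 := lf_div hm b q
  have hzy' := hzy
  rw [Fin.lt_def] at hzy'
  rcases Nat.lt_or_ge ((z : ℕ) / 5) b with h1 | h1
  · exact absurd ⟨z, _, hz, by omega, by omega⟩ (hO ((b : ℕ) - 1) (by omega))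
  · obtain ⟨t, rfl⟩ := exists_lf hm z b (by omega)
    exact ⟨t, (lf_lt hm).1 hzy, code_two.2 (not_mx hz hzy)⟩

theorem exists_upper {P : Setoid (Fin (m + 2))} {y : Fin (m + 2)} (h1 : code P y = 2) :
    ∃ e, P y e ∧ y < e ∧ code P e = 1 := by
  have h2 := code_two.1 h1
  unfold Mx at h2
  push Not at h2
  obtain ⟨z, hz, hlt⟩ := h2
  obtain ⟨e, he, he2⟩ := exists_max P y
  have h3 : z ≤ e := he2 z (P.trans' (P.symm' he) hz)
  have h4 : y < e := hlt.trans_le h3
  exact ⟨e, he, h4, code_one.2 ⟨not_sg (P.symm' he) h4.ne', he2⟩⟩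

theorem bc_lastE {P : Setoid (Fin (m + 2))} (b : Fin (2 * h)) (hO : ¬ Op P b) :
    lastE (bc hm P b) := by
  intro q hq
  unfold bc at hq
  obtain ⟨e, he, hlt, hc⟩ := exists_upper hq
  have e2 := lf_div hm b q
  have hlt' := hlt
  rw [Fin.lt_def] at hlt'
  rcases Nat.lt_or_ge (b : ℕ) ((e : ℕ) / 5) with h1 | h1
  · exact absurd ⟨_, e, he, by omega, by omega⟩ hO
  · obtain ⟨t, rfl⟩ := exists_lf hm e b (by omega)
    exact ⟨t, (lf_lt hm).1 hlt, hc⟩

theorem bc_lastC {P : Setoid (Fin (m + 2))} (hT : Conv 1 P) (b : Fin (2 * h)) (hO : Op P b)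
    (hO' : ∀ b', b' + 1 = (b : ℕ) → ¬ Op P b') : lastC (bc hm P b) := by
  obtain ⟨i, j, hij, h1, h2⟩ := hO
  have hi : (i : ℕ) / 5 = b := by
    by_contra hcon
    exact hO' ((b : ℕ) - 1) (by omega) ⟨i, j, hij, by omega, by omega⟩
  have hlt : i < j := by rw [Fin.lt_def]; omega
  obtain ⟨t, rfl⟩ := exists_lf hm i b hi
  have ht : bc hm P b t = 2 := code_two.2 (not_mx hij hlt)
  refine ⟨⟨t, ht⟩, ?_⟩
  intro q hq
  unfold bc at hq
  obtain ⟨hs, hM⟩ := code_one.1 hq
  rcases lt_trichotomy (lf hm b q : Fin (m + 2)) (lf hm b t) with h3 | h3 | h3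
  · exact ⟨t, (lf_lt hm).1 h3, ht⟩
  · rw [h3] at hM
    exact absurd hM (not_mx hij hlt)
  · have h5 : (lf hm b q : Fin (m + 2)) < j := by
      have := lf_div hm b q
      rw [Fin.lt_def]; omega
    rcases T1 hT h3 h5 hij with h4 | h4
    · exact absurd hM (not_mx (P.trans' (P.symm' h4) hij) h5)
    · exact absurd h4 hs

def Al (hh : 0 < h) (o : Fin (2 * h) → Bool) (b : Fin (2 * h)) : Finset (Fin 5 → Fin 3) :=
  if o (pin hh b) then {fun _ => 0} else if o (prv hh b) then FD else if o b then FU else FA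

open Classical in
noncomputable def oP (P : Setoid (Fin (m + 2))) (b : Fin (2 * h)) : Bool := decide (Op P b)

theorem oP_iff (P : Setoid (Fin (m + 2))) (b : Fin (2 * h)) : oP P b = true ↔ Op P b := by
  unfold oP; simp

include hm in
theorem not_op_last {P : Setoid (Fin (m + 2))} : ¬ Op P (2 * h - 1) := by
  rintro ⟨i, j, -, h1, h2⟩
  have := j.2
  omega

theorem mem_Al (hh : 0 < h) {P : Setoid (Fin (m + 2))} (hT : Conv 1 P)
    (hF : Conv (sg m h hm) P) (hX : ¬ Cross h P) (b : Fin (2 * h)) :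
    bc hm P b ∈ Al hh (oP P) b := by
  have hb := b.2
  unfold Al
  have hp : (∀ b', b' + 1 = (b : ℕ) → ¬ Op P b') ∨ oP P (prv hh b) = true := by
    by_cases h0 : (b : ℕ) = 0
    · left; intro b' hb'; omega
    · by_cases h1 : Op P ((b : ℕ) - 1)
      · right
        rw [oP_iff]
        have e1 : ((prv hh b : Fin (2 * h)) : ℕ) = b - 1 := by simp only [prv, if_neg h0]
        rw [e1]; exact h1
      · left
        intro b' hb'
        have : b' = (b : ℕ) - 1 := by omega
        rw [this]; exact h1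
  split_ifs with h1 h2 h3
  · rw [mem_singleton]
    funext o
    unfold bc
    rw [code_zero]
    rw [oP_iff] at h1
    have h4 := lf_div hm b o
    by_cases hbh : h ≤ (b : ℕ)
    · have e1 : ((pin hh b : Fin (2 * h)) : ℕ) = b - h := by simp only [pin, if_pos hbh]
      rw [e1] at h1
      exact dead1 hm hF hX (b := (b : ℕ) - h) (by omega) h1 (by omega)
    · by_cases h0 : (b : ℕ) = 0
      · have e1 : ((pin hh b : Fin (2 * h)) : ℕ) = 2 * h - 1 := by
          simp only [pin, if_neg hbh, if_pos h0]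
        rw [e1] at h1
        exact absurd h1 (not_op_last hm)
      · have e1 : ((pin hh b : Fin (2 * h)) : ℕ) = h + b - 1 := by
          simp only [pin, if_neg hbh, if_neg h0]
        rw [e1] at h1
        exact dead2 hm hF hX (b := h + (b : ℕ) - 1) (by omega) (by omega) h1 (by omega)
  · unfold FD
    rw [mem_filter]
    exact ⟨mem_univ _, bc_okE hm hT b⟩
  · unfold FU
    rw [mem_filter]
    have hp' := hp.resolve_right h2
    rw [oP_iff] at h3
    exact ⟨mem_univ _, bc_okE hm hT b, bc_firstC hm b hp', bc_lastC hm hT b h3 hp'⟩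
  · unfold FA
    rw [mem_filter]
    have hp' := hp.resolve_right h2
    rw [oP_iff] at h3
    exact ⟨mem_univ _, bc_okE hm hT b, bc_firstC hm b hp', bc_lastE hm b h3⟩

theorem wAl (hh : 0 < h) (o : Fin (2 * h) → Bool) (b : Fin (2 * h)) :
    ((∑ c ∈ Al hh o b, wN c : ℕ) : ℚ) ≤ 153 * ((if o b then (418 / 153 : ℚ) else 1) *
      ((if o (prv hh b) then (780 / 153 : ℚ) else 1) *
      (if o (pin hh b) then (1 / 153 : ℚ) else 1))) := by
  unfold Al
  have hz : wN (fun _ => 0) = 1 := by decide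
  cases h1 : o (pin hh b) <;> cases h2 : o (prv hh b) <;> cases h3 : o b <;>
    simp [sumA, sumU, sumD, hz] <;> norm_num

theorem sum_bound (hh : 0 < h) :
    ((∑ o : Fin (2 * h) → Bool, ∏ b, ∑ c ∈ Al hh o b, wN c : ℕ) : ℚ) ≤ 167 ^ (2 * h) := by
  have h1 : ∀ o : Fin (2 * h) → Bool, ((∏ b, ∑ c ∈ Al hh o b, wN c : ℕ) : ℚ) ≤
      ∏ b, (if o b then (418 * 780 / 153 ^ 2 : ℚ) else 153) := by
    intro o
    rw [Nat.cast_prod]
    calc ∏ b, ((∑ c ∈ Al hh o b, wN c : ℕ) : ℚ) ≤ ∏ b, (153 * ((if o b then (418 / 153 : ℚ) else 1) *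
      ((if o (prv hh b) then (780 / 153 : ℚ) else 1) *
      (if o (pin hh b) then (1 / 153 : ℚ) else 1)))) :=
          prod_le_prod (fun b _ => Nat.cast_nonneg _) (fun b _ => wAl hh o b)
      _ = _ := by
        rw [prod_mul_distrib, prod_mul_distrib, prod_mul_distrib,
          (prv_bij hh).prod_comp (fun b => if o b then (780 / 153 : ℚ) else 1),
          (pin_bij hh).prod_comp (fun b => if o b then (1 / 153 : ℚ) else 1),
          ← prod_mul_distrib, ← prod_mul_distrib, ← prod_mul_distrib]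
        apply prod_congr rfl
        intro b _
        split_ifs <;> norm_num
  rw [Nat.cast_sum]
  refine (sum_le_sum (fun o _ => h1 o)).trans ?_
  have h2 := Fintype.sum_pow (fun a : Bool => if a then (418 * 780 / 153 ^ 2 : ℚ) else 153) (2 * h)
  rw [← h2]
  apply pow_le_pow_left₀
  · simp; norm_num
  · simp; norm_num

theorem boundN (hh : 0 < h) (k : ℕ) (s : Finset (Setoid (Fin (m + 2))))
    (hs : ∀ P ∈ s, Conv 1 P ∧ Conv (sg m h hm) P ∧ Nat.card (Quotient P) = k ∧ ¬ Cross h P) :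
    #s * 2 ^ (m + 2 - k) ≤ 167 ^ (2 * h) := by
  classical
  have h1 := count_le s (2 ^ (m + 2 - k)) (univ : Finset (Fin (2 * h) → Bool))
    (fun o => Fintype.piFinset (Al hh o)) (fun g => ∏ b, wN (g b)) (fun P => oP P)
    (fun P => bc hm P) (fun _ _ => mem_univ _)
    (fun P hP => by
      rw [Fintype.mem_piFinset]
      intro b
      obtain ⟨a1, a2, a3, a4⟩ := hs P hP
      exact mem_Al hm hh a1 a2 a4 b)
    (fun P hP Q hQ hPQ => bc_inj hm (hs P hP).1 (hs Q hQ).1 hPQ)
    (fun P hP => by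
      have := prod_weight P (![1, 1, 2] : Fin 3 → ℕ) 1 2 rfl rfl rfl
      rw [← prod_bc hm, (hs P hP).2.2.1, one_pow, one_mul] at this
      exact this)
  have h2 : ∑ o : Fin (2 * h) → Bool, ∑ x ∈ Fintype.piFinset (Al hh o), ∏ b, wN (x b) =
      ∑ o : Fin (2 * h) → Bool, ∏ b, ∑ c ∈ Al hh o b, wN c := by
    apply sum_congr rfl
    intro o _
    rw [Finset.prod_univ_sum]
  rw [h2] at h1
  have h3 := sum_bound (h := h) hh
  have h4 : ((#s * 2 ^ (m + 2 - k) : ℕ) : ℚ) ≤ ((167 ^ (2 * h) : ℕ) : ℚ) := by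
    refine (Nat.cast_le.2 h1).trans ?_
    rw [Nat.cast_pow]
    exact h3
  exact_mod_cast h4

end Pool.Agent.H78.Uni
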