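import Pool.Agent.H78.Uni.CaseN

set_option autoImplicit false

namespace Pool.Agent.H78.Uni
open Finset Pool.Agent.R935.Phylo

def wX (c : Fin 5 → Fin 3) : ℕ := ∏ o, (![13, 13, 12] : Fin 3 → ℕ) (c o)
def NE : Finset (Fin 5 → Fin 3) := univ.filter fun c => ∀ o, c o ≠ 1

theorem sumXall : ∑ c : Fin 5 → Fin 3, wX c = 38 ^ 5 := by decide +kernel
theorem sumXNE : ∑ c ∈ NE, wX c = 25 ^ 5 := by decide +kernel
theorem wX0 : wX (fun _ => 0) = 13 ^ 5 := by decide +kernel

/-- column of a block. -/
def col (h β : ℕ) : ℕ := if β < h then β else β - h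

def AlX (h a b u v β : ℕ) : Finset (Fin 5 → Fin 3) :=
  if col h β = a ∨ col h β = b ∨ col h β = u ∨ col h β = v then univ
  else if col h β < a then (if β < h then univ else {fun _ => 0})
  else if b < col h β then (if β < h then {fun _ => 0} else univ)
  else NE

/-- blocks as (column, half). -/
def cb {h : ℕ} : Fin h × Bool ≃ Fin (2 * h) where
  toFun p := ⟨if p.2 then h + p.1 else p.1, by have := p.1.2; split_ifs <;> omega⟩
  invFun β := (⟨if (β : ℕ) < h then β else β - h, by have := β.2; split_ifs <;> omega⟩,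
    decide (h ≤ (β : ℕ)))
  left_inv p := by
    obtain ⟨t, e⟩ := p
    have := t.2
    cases e
    · simp
    · simp
  right_inv β := by
    have := β.2
    ext
    by_cases h1 : (β : ℕ) < h
    · simp [h1, not_le.2 h1]
    · simp [h1, not_lt.1 h1]

theorem colBound {h : ℕ} (a b u v : Fin h) (t : Fin h) :
    (∑ c ∈ AlX h a b u v (cb (t, true)), wX c) * (∑ c ∈ AlX h a b u v (cb (t, false)), wX c) ≤
      25 ^ 10 * ((if t = a then 38 ^ 10 else 1) * ((if t = b then 38 ^ 10 else 1) *
        ((if t = u then 38 ^ 10 else 1) * (if t = v then 38 ^ 10 else 1)))) := by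
  have ht := t.2
  have e1 : ((cb (t, true) : Fin (2 * h)) : ℕ) = h + t := by simp [cb]
  have e2 : ((cb (t, false) : Fin (2 * h)) : ℕ) = t := by simp [cb]
  have c1 : col h (h + t) = t := by unfold col; split_ifs <;> omega
  have c2 : col h t = t := by unfold col; rw [if_pos ht]
  have n1 : ¬ (h + (t : ℕ) < h) := by omega
  have ka : (t = a) ↔ ((t : ℕ) = a) := Fin.ext_iff
  have kb : (t = b) ↔ ((t : ℕ) = b) := Fin.ext_iff
  have ku : (t = u) ↔ ((t : ℕ) = u) := Fin.ext_iff
  have kv : (t = v) ↔ ((t : ℕ) = v) := Fin.ext_iff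
  unfold AlX
  rw [e1, e2, c1, c2]
  by_cases hB : (t : ℕ) = a ∨ (t : ℕ) = b ∨ (t : ℕ) = u ∨ (t : ℕ) = v
  · rw [if_pos hB, if_pos hB, sumXall]
    have h1 : (38 : ℕ) ^ 10 ≤ ((if t = a then 38 ^ 10 else 1) * ((if t = b then 38 ^ 10 else 1) *
        ((if t = u then 38 ^ 10 else 1) * (if t = v then 38 ^ 10 else 1)))) := by
      rcases hB with h1 | h1 | h1 | h1
      · rw [if_pos (ka.2 h1)]; split_ifs <;> norm_num
      · rw [if_pos (kb.2 h1)]; split_ifs <;> norm_num
      · rw [if_pos (ku.2 h1)]; split_ifs <;> norm_num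
      · rw [if_pos (kv.2 h1)]; split_ifs <;> norm_num
    calc 38 ^ 5 * 38 ^ 5 = 1 * 38 ^ 10 := by norm_num
      _ ≤ 25 ^ 10 * _ := Nat.mul_le_mul (by norm_num) h1
  · rw [if_neg hB, if_neg hB]
    push Not at hB
    obtain ⟨h1, h2, h3, h4⟩ := hB
    rw [if_neg (fun hh => h1 (ka.1 hh)), if_neg (fun hh => h2 (kb.1 hh)),
      if_neg (fun hh => h3 (ku.1 hh)), if_neg (fun hh => h4 (kv.1 hh))]
    by_cases h5 : (t : ℕ) < a
    · rw [if_pos h5, if_pos h5, if_neg n1, if_pos ht, sum_singleton, wX0, sumXall]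
      norm_num
    · rw [if_neg h5, if_neg h5]
      by_cases h6 : (b : ℕ) < t
      · rw [if_pos h6, if_pos h6, if_neg n1, if_pos ht, sum_singleton, wX0, sumXall]
        norm_num
      · rw [if_neg h6, if_neg h6, sumXNE]
        norm_num

theorem prodBound {h : ℕ} (a b u v : Fin h) :
    ∏ β : Fin (2 * h), ∑ c ∈ AlX h a b u v β, wX c ≤ 25 ^ (10 * h) * 38 ^ 40 := by
  rw [← Equiv.prod_comp (cb (h := h)) (fun β : Fin (2 * h) => ∑ c ∈ AlX h a b u v β, wX c),
    Fintype.prod_prod_type]
  calc _ ≤ ∏ t : Fin h, 25 ^ 10 * ((if t = a then 38 ^ 10 else 1) *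
        ((if t = b then 38 ^ 10 else 1) *
        ((if t = u then 38 ^ 10 else 1) * (if t = v then 38 ^ 10 else 1)))) := by
        apply prod_le_prod (fun _ _ => Nat.zero_le _)
        intro t _
        rw [Fintype.prod_bool]
        exact colBound a b u v t
    _ = 25 ^ (10 * h) * 38 ^ 40 := by
        rw [prod_mul_distrib, prod_mul_distrib, prod_mul_distrib, prod_mul_distrib, prod_const,
          card_univ, Fintype.card_fin, prod_ite_eq', prod_ite_eq', prod_ite_eq', prod_ite_eq',
          ← pow_mul]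
        simp only [mem_univ, if_true]
        congr 1
        

variable {m h : ℕ} (hm : m + 2 = 10 * h)

theorem mem_AlX {P : Setoid (Fin (m + 2))} (hT : Conv 1 P) (hF : Conv (sg m h hm) P)
    (hX : Cross h P) : ∃ a b u v : Fin h, ∀ β : Fin (2 * h), bc hm P β ∈ AlX h a b u v β := by
  classical
  obtain ⟨i0, j0, hij, hi0, hj0⟩ := hX
  set K : Finset (Fin (m + 2)) := univ.filter fun x => P i0 x with hK
  have mK : ∀ x, x ∈ K ↔ P i0 x := by intro x; simp [hK]
  have hne : K.Nonempty := ⟨i0, (mK _).2 (P.refl' _)⟩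
  obtain ⟨xa, ha, ha'⟩ := exists_min_image K (fun x => col h ((x : ℕ) / 5)) hne
  obtain ⟨xb, hb, hb'⟩ := exists_max_image K (fun x => col h ((x : ℕ) / 5)) hne
  obtain ⟨xu, hu, hu'⟩ := exists_min_image K (fun x => (x : ℕ) / 5) hne
  obtain ⟨xv, hv, hv'⟩ := exists_max_image K (fun x => (x : ℕ) / 5) hne
  have hcol : ∀ x : Fin (m + 2), col h ((x : ℕ) / 5) < h := by
    intro x; have := x.2; unfold col; split_ifs <;> omega
  have hu1 : (xu : ℕ) / 5 < h := (hu' i0 ((mK _).2 (P.refl' _))).trans_lt hi0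
  have hv1 : h ≤ (xv : ℕ) / 5 := hj0.trans (hv' j0 ((mK _).2 hij))
  have hv2 : (xv : ℕ) / 5 - h < h := by have := xv.2; omega
  refine ⟨⟨_, hcol xa⟩, ⟨_, hcol xb⟩, ⟨_, hu1⟩, ⟨_, hv2⟩, ?_⟩
  intro β
  have hβ := β.2
  set A := col h ((xa : ℕ) / 5) with hA
  set B := col h ((xb : ℕ) / 5) with hB
  simp only
  have kua : A ≤ (xu : ℕ) / 5 := by
    have := ha' xu hu
    unfold col at this
    rw [if_pos hu1] at this
    exact this
  have kub : (xu : ℕ) / 5 ≤ B := by
    have := hb' xu hu
    unfold col at this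
    rw [if_pos hu1] at this
    exact this
  have kva : A ≤ (xv : ℕ) / 5 - h := by
    have := ha' xv hv
    unfold col at this
    rw [if_neg (not_lt.2 hv1)] at this
    exact this
  have kvb : (xv : ℕ) / 5 - h ≤ B := by
    have := hb' xv hv
    unfold col at this
    rw [if_neg (not_lt.2 hv1)] at this
    exact this
  have inK : ∀ x y l : Fin (m + 2), x ∈ K → (P x l ∨ Sg P l) → l ∈ K ∨ Sg P l := by
    intro x y l hx h1
    rcases h1 with h1 | h1
    · exact Or.inl ((mK l).2 (P.trans' ((mK x).1 hx) h1))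
    · exact Or.inr h1
  have KK : ∀ x y, x ∈ K → y ∈ K → P x y := fun x y hx hy =>
    P.trans' (P.symm' ((mK x).1 hx)) ((mK y).1 hy)
  -- T-between
  have TB : ∀ l : Fin (m + 2), (xu : ℕ) / 5 < (l : ℕ) / 5 → (l : ℕ) / 5 < (xv : ℕ) / 5 →
      l ∈ K ∨ Sg P l := fun l h1 h2 => inK xu xv l hu (T1b hT h1 h2 (KK _ _ hu hv))
  have FB : ∀ x y l : Fin (m + 2), x ∈ K → y ∈ K → phi h ((x : ℕ) / 5) < phi h ((l : ℕ) / 5) →
      phi h ((l : ℕ) / 5) < phi h ((y : ℕ) / 5) → l ∈ K ∨ Sg P l :=
    fun x y l hx hy h1 h2 => inK x y l hx (T2 hm hF h1 h2 (KK _ _ hx hy))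
  unfold AlX
  by_cases c0 : col h (β : ℕ) = A ∨ col h (β : ℕ) = B ∨ col h (β : ℕ) = (xu : ℕ) / 5 ∨
      col h (β : ℕ) = (xv : ℕ) / 5 - h
  · rw [if_pos c0]; exact mem_univ _
  · rw [if_neg c0]
    push Not at c0
    obtain ⟨n1, n2, n3, n4⟩ := c0
    by_cases c1 : col h (β : ℕ) < A
    · rw [if_pos c1]
      by_cases c2 : (β : ℕ) < h
      · rw [if_pos c2]; exact mem_univ _
      · rw [if_neg c2, mem_singleton]
        funext o
        unfold bc
        rw [code_zero]
        have hd := lf_div hm β o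
        have hc : col h (β : ℕ) = β - h := by unfold col; rw [if_neg c2]
        rcases TB (lf hm β o) (by omega) (by omega) with h3 | h3
        · have := ha' _ h3
          rw [hd] at this
          omega
        · exact h3
    · rw [if_neg c1]
      by_cases c3 : B < col h (β : ℕ)
      · rw [if_pos c3]
        by_cases c2 : (β : ℕ) < h
        · rw [if_pos c2, mem_singleton]
          funext o
          unfold bc
          rw [code_zero]
          have hd := lf_div hm β o
          have hc : col h (β : ℕ) = β := by unfold col; rw [if_pos c2]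
          rcases TB (lf hm β o) (by omega) (by omega) with h3 | h3
          · have := hb' _ h3
            rw [hd] at this
            omega
          · exact h3
        · rw [if_neg c2]; exact mem_univ _
      · rw [if_neg c3]
        unfold NE
        rw [mem_filter]
        refine ⟨mem_univ _, ?_⟩
        intro o ho
        unfold bc at ho
        obtain ⟨hs, hM⟩ := code_one.1 ho
        have hd := lf_div hm β o
        have hin : (lf hm β o : Fin (m + 2)) ∈ K := by
          apply Or.resolve_right _ hs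
          by_cases c2 : (β : ℕ) < h
          · have hc : col h (β : ℕ) = β := by unfold col; rw [if_pos c2]
            rcases lt_trichotomy ((xu : ℕ) / 5) (β : ℕ) with h4 | h4 | h4
            · exact TB _ (by omega) (by omega)
            · omega
            · apply FB xa xu _ ha hu
              · rw [hd]
                have : col h ((xa : ℕ) / 5) < β := by omega
                unfold col at this
                unfold phi
                split_ifs at this ⊢ <;> omega
              · rw [hd]; unfold phi; split_ifs <;> omega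
          · have hc : col h (β : ℕ) = β - h := by unfold col; rw [if_neg c2]
            rcases lt_trichotomy ((xv : ℕ) / 5) (β : ℕ) with h4 | h4 | h4
            · apply FB xv xb _ hv hb
              · rw [hd]; unfold phi; split_ifs <;> omega
              · rw [hd]
                have : (β : ℕ) - h < col h ((xb : ℕ) / 5) := by omega
                unfold col at this
                unfold phi
                split_ifs at this ⊢ <;> omega
            · omega
            · exact TB _ (by omega) (by omega)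
        have h5 : xv ≤ lf hm β o := hM xv (KK _ _ hin hv)
        have h6 := hv' _ hin
        rw [Fin.le_def] at h5
        have h7 : (xv : ℕ) / 5 = β := by omega
        have hc : col h (β : ℕ) = β - h := by unfold col; rw [if_neg (by omega)]
        omega

theorem boundX (k : ℕ) (s : Finset (Setoid (Fin (m + 2))))
    (hs : ∀ P ∈ s, Conv 1 P ∧ Conv (sg m h hm) P ∧ Nat.card (Quotient P) = k ∧ Cross h P) :
    #s * (13 ^ k * 12 ^ (m + 2 - k)) ≤ h ^ 4 * (25 ^ (10 * h) * 38 ^ 40) := by
  classical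
  have hex : ∀ P : Setoid (Fin (m + 2)), ∃ p : (Fin h × Fin h) × (Fin h × Fin h), P ∈ s →
      ∀ β : Fin (2 * h), bc hm P β ∈ AlX h p.1.1 p.1.2 p.2.1 p.2.2 β := by
    intro P
    by_cases hP : P ∈ s
    · obtain ⟨a1, a2, a3, a4⟩ := hs P hP
      obtain ⟨a, b, u, v, hh⟩ := mem_AlX hm a1 a2 a4
      exact ⟨((a, b), (u, v)), fun _ => hh⟩
    · by_cases hh : 0 < h
      · exact ⟨((⟨0, hh⟩, ⟨0, hh⟩), (⟨0, hh⟩, ⟨0, hh⟩)), fun h1 => absurd h1 hP⟩
      · omega
  choose p hp using hex
  have h1 := count_le s (13 ^ k * 12 ^ (m + 2 - k))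
    (univ : Finset ((Fin h × Fin h) × (Fin h × Fin h)))
    (fun p => Fintype.piFinset (fun β : Fin (2 * h) => AlX h p.1.1 p.1.2 p.2.1 p.2.2 β))
    (fun g => ∏ b, wX (g b)) p
    (fun P => bc hm P) (fun _ _ => mem_univ _)
    (fun P hP => by
      rw [Fintype.mem_piFinset]
      exact hp P hP)
    (fun P hP Q hQ hPQ => bc_inj hm (hs P hP).1 (hs Q hQ).1 hPQ)
    (fun P hP => by
      have := prod_weight P (![13, 13, 12] : Fin 3 → ℕ) 13 12 rfl rfl rfl
      rw [← prod_bc hm, (hs P hP).2.2.1] at this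
      exact this)
  refine h1.trans ?_
  have h2 : ∀ p ∈ (univ : Finset ((Fin h × Fin h) × (Fin h × Fin h))),
      ∑ x ∈ Fintype.piFinset (fun β : Fin (2 * h) => AlX h p.1.1 p.1.2 p.2.1 p.2.2 β),
        ∏ b, wX (x b) ≤ 25 ^ (10 * h) * 38 ^ 40 := by
    intro p _
    rw [← Finset.prod_univ_sum]
    exact prodBound _ _ _ _
  refine (sum_le_card_nsmul _ _ _ h2).trans ?_
  rw [card_univ, smul_eq_mul]
  simp only [Fintype.card_prod, Fintype.card_fin]
  apply le_of_eq
  ring

end Pool.Agent.H78.Uni
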