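import Pool.Agent.H78.Uni.LowB
import Pool.Agent.H78.Uni.CaseX

set_option autoImplicit false

namespace Pool.Agent.H78.Uni
open Finset Pool.Agent.R935.Phylo

section gen
variable {m h : ℕ} (hm : m + 2 = 10 * h)

/-- all common partitions with `k` classes. -/
def Cset (k : ℕ) : Set (Setoid (Fin (m + 2))) :=
  {P | Conv 1 P ∧ Conv (sg m h hm) P ∧ Nat.card (Quotient P) = k}

theorem NT_le_C (k : ℕ) : (NTset (h := h) hm k).ncard ≤ (Cset (h := h) hm k).ncard := by
  apply Set.ncard_le_ncard _ (fin_setoid _ _)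
  rintro P ⟨h1, h2, h3, -⟩
  exact ⟨h1, h2, h3⟩

theorem final (hh : 0 < h) {K k1 D L : ℕ} (hK : K ≤ m + 2) (hk1 : 2 ≤ k1) (hk1' : k1 ≤ m)
    (hD : m + 2 ≤ 2 * D) (hZ : L ≤ D * m.choose (k1 - 2))
    (nA : 167 ^ (2 * h) * (2 * D) ≤ L * 2 ^ (m + 2 - K))
    (nB : h ^ 4 * (25 ^ (10 * h) * 38 ^ 40) * (2 * D) < L * (13 ^ K * 12 ^ (m + 2 - K)))
    (nC : 153 ^ (2 * h) + 2 * L * 2 ^ (m + 2 - K) < 34 ^ (2 * h - 2) * 2 ^ (m + 2 - K)) :
    (Cset (h := h) hm K).ncard < (NTset (h := h) hm k1).ncard ∧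
    ∃ k3, K < k3 ∧ k3 ≤ m + 2 ∧ (Cset (h := h) hm K).ncard < (NTset (h := h) hm k3).ncard := by
  classical
  obtain ⟨s, hs⟩ : ∃ s : Finset (Setoid (Fin (m + 2))), (s : Set _) = Cset (h := h) hm K :=
    ⟨(fin_setoid _ (Cset (h := h) hm K)).toFinset, by simp⟩
  have ms : ∀ P, P ∈ s ↔ P ∈ Cset (h := h) hm K := by
    intro P; rw [← hs, mem_coe]
  have hcard : (Cset (h := h) hm K).ncard = #s := by rw [← hs, Set.ncard_coe_finset]
  set sN := s.filter (fun P => ¬ Cross h P) with hsN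
  set sX := s.filter (fun P => Cross h P) with hsX
  have hsum : #sX + #sN = #s := card_filter_add_card_filter_not _
  have bN := boundN hm hh K sN (fun P hP => by
    rw [hsN, mem_filter] at hP
    obtain ⟨a1, a2, a3⟩ := (ms P).1 hP.1
    exact ⟨a1, a2, a3, hP.2⟩)
  have bX := boundX hm K sX (fun P hP => by
    rw [hsX, mem_filter] at hP
    obtain ⟨a1, a2, a3⟩ := (ms P).1 hP.1
    exact ⟨a1, a2, a3, hP.2⟩)
  have W1 : 0 < 2 ^ (m + 2 - K) := by positivity
  have W2 : 0 < 13 ^ K * 12 ^ (m + 2 - K) := by positivity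
  have c1 : #sN * (2 * D) ≤ L := by
    apply Nat.le_of_mul_le_mul_right _ W1
    calc #sN * (2 * D) * 2 ^ (m + 2 - K) = (#sN * 2 ^ (m + 2 - K)) * (2 * D) := by ring
      _ ≤ 167 ^ (2 * h) * (2 * D) := Nat.mul_le_mul_right _ bN
      _ ≤ _ := nA
  have c2 : #sX * (2 * D) < L := by
    apply Nat.lt_of_mul_lt_mul_right (a := 13 ^ K * 12 ^ (m + 2 - K))
    calc #sX * (2 * D) * (13 ^ K * 12 ^ (m + 2 - K))
        = (#sX * (13 ^ K * 12 ^ (m + 2 - K))) * (2 * D) := by ring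
      _ ≤ h ^ 4 * (25 ^ (10 * h) * 38 ^ 40) * (2 * D) := Nat.mul_le_mul_right _ bX
      _ < _ := nB
  have c3 : #s * (2 * D) < 2 * L := by
    rw [← hsum, add_mul]; omega
  have c4 : #s < m.choose (k1 - 2) := by
    by_contra hcon
    have h5 : D * m.choose (k1 - 2) ≤ D * #s := Nat.mul_le_mul_left _ (not_lt.1 hcon)
    have h6 : #s * (2 * D) = 2 * (D * #s) := by ring
    omega
  rw [hcard]
  refine ⟨c4.trans_le (lowA hm hk1 hk1'), ?_⟩
  by_contra hcon
  push Not at hcon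
  have h7 := lowB hm hh K (#s) hK (fun k a b => hcon k a b)
  have h8 : (m + 2) * #s ≤ 2 * L := by
    calc (m + 2) * #s ≤ (2 * D) * #s := Nat.mul_le_mul_right _ hD
      _ = #s * (2 * D) := by ring
      _ ≤ _ := c3.le
  have h9 : (m + 2) * #s * 2 ^ (m + 2 - K) ≤ 2 * L * 2 ^ (m + 2 - K) :=
    Nat.mul_le_mul_right _ h8
  omega

end gen

theorem numA : 167 ^ (2 * 30000) * (2 * 299998) ≤ 4 ^ 149999 * 2 ^ (299998 + 2 - 156000) := by
  decide +kernel

theorem numB : 30000 ^ 4 * (25 ^ (10 * 30000) * 38 ^ 40) * (2 * 299998) <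
    4 ^ 149999 * (13 ^ 156000 * 12 ^ (299998 + 2 - 156000)) := by
  decide +kernel

theorem numC : 153 ^ (2 * 30000) + 2 * 4 ^ 149999 * 2 ^ (299998 + 2 - 156000) <
    34 ^ (2 * 30000 - 2) * 2 ^ (299998 + 2 - 156000) := by
  decide +kernel

theorem hm0 : 299998 + 2 = 10 * 30000 := by norm_num

theorem numZ' (a b c : ℕ) (ha : 0 < a) (hb : b = 2 * a) (hc : c = a) :
    4 ^ a ≤ b * b.choose c := by
  subst hb hc
  have h1 := Nat.four_pow_le_two_mul_self_mul_centralBinom c ha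
  rwa [Nat.centralBinom] at h1

theorem numZ : 4 ^ 149999 ≤ 299998 * (299998 : ℕ).choose (150001 - 2) :=
  numZ' 149999 299998 (150001 - 2) (by norm_num) (by norm_num) (by norm_num)

theorem main : (Cset (h := 30000) hm0 156000).ncard < (NTset (h := 30000) hm0 150001).ncard ∧
    ∃ k3, 156000 < k3 ∧ k3 ≤ 299998 + 2 ∧
      (Cset (h := 30000) hm0 156000).ncard < (NTset (h := 30000) hm0 k3).ncard :=
  final hm0 (by norm_num) (D := 299998) (L := 4 ^ 149999) (by norm_num) (by norm_num)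
    (by norm_num) (by norm_num) numZ numA numB numC

/-- the first tree: caterpillar in the natural order. -/
def T1t : PhyloTree (299998 + 2) := cat 299998 (by norm_num) 1
/-- the second tree: caterpillar in the shuffled block order. -/
def T2t : PhyloTree (299998 + 2) := cat 299998 (by norm_num) (sg 299998 30000 hm0)

theorem common_eq (k : ℕ) : common T1t T2t k = (Cset (h := 30000) hm0 k).ncard := by
  unfold common Cset T1t T2t
  congr 1
  ext P
  simp only [Set.mem_ofPred_eq, induces_iff]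

theorem commonNT_eq (k : ℕ) : commonNT T1t T2t k = (NTset (h := 30000) hm0 k).ncard := by
  unfold commonNT NTset T1t T2t
  congr 1
  ext P
  simp only [Set.mem_ofPred_eq, induces_iff]

/-- `a 1, ..., a n` is unimodal. -/
def Unimodal (n : ℕ) (a : ℕ → ℕ) : Prop :=
  ∃ p, (∀ i j, 1 ≤ i → i ≤ j → j ≤ p → j ≤ n → a i ≤ a j) ∧
    (∀ i j, p ≤ i → 1 ≤ i → i ≤ j → j ≤ n → a j ≤ a i)

theorem not_unimodal {n : ℕ} {a : ℕ → ℕ} {x y z : ℕ} (hx : 1 ≤ x) (hxy : x ≤ y) (hyz : y ≤ z)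
    (hz : z ≤ n) (h1 : a y < a x) (h2 : a y < a z) : ¬ Unimodal n a := by
  rintro ⟨p, hp, hp'⟩
  rcases le_total y p with h | h
  · exact absurd (hp x y hx hxy h (hyz.trans hz)) (not_le.2 h1)
  · exact absurd (hp' y z h (hx.trans hxy) hyz hz) (not_le.2 h2)

theorem nonNT : ¬ Unimodal (299998 + 2) (commonNT T1t T2t) := by
  obtain ⟨h1, k3, h2, h3, h4⟩ := main
  have h5 := NT_le_C (h := 30000) hm0 156000
  refine not_unimodal (x := 150001) (y := 156000) (z := k3) (by norm_num) (by norm_num) h2.le h3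
    ?_ ?_
  · rw [commonNT_eq, commonNT_eq]; exact h5.trans_lt h1
  · rw [commonNT_eq, commonNT_eq]; exact h5.trans_lt h4

theorem nonC : ¬ Unimodal (299998 + 2) (common T1t T2t) := by
  obtain ⟨h1, k3, h2, h3, h4⟩ := main
  refine not_unimodal (x := 150001) (y := 156000) (z := k3) (by norm_num) (by norm_num) h2.le h3
    ?_ ?_
  · rw [common_eq, common_eq]; exact h1.trans_le (NT_le_C hm0 _)
  · rw [common_eq, common_eq]; exact h4.trans_le (NT_le_C hm0 _)

end Pool.Agent.H78.Uni
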