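import Pool.Agent.H78.Uni.Base

set_option autoImplicit false

namespace Pool.Agent.H78.Uni
open Finset Pool.Agent.R935.Phylo

variable {m h : ℕ} (hm : m + 2 = 10 * h)

/-- all common non-trivial partitions with `k` classes, in terms of leaf orders. -/
def NTset (k : ℕ) : Set (Setoid (Fin (m + 2))) :=
  {P | Conv 1 P ∧ Conv (sg m h hm) P ∧ Nat.card (Quotient P) = k ∧ NonTrivial P}

theorem val0 : ((0 : Fin (m + 2)) : ℕ) = 0 := rfl
theorem val1 : ((1 : Fin (m + 2)) : ℕ) = 1 := by simp
theorem zne1 : (0 : Fin (m + 2)) ≠ 1 := by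
  intro h
  have := Fin.ext_iff.1 h
  rw [val1, val0] at this
  omega

theorem fin_setoid (n : ℕ) (s : Set (Setoid (Fin n))) : s.Finite := by
  have : Finite (Setoid (Fin n)) := by
    apply Finite.of_injective (fun P : Setoid (Fin n) => fun i j => P i j)
    intro P Q h
    apply Setoid.ext
    intro i j
    exact iff_of_eq (congrFun (congrFun h i) j)
  exact Set.toFinite s

theorem goodS {k : ℕ} (hk : 2 ≤ k) (hk' : k ≤ m) {S : Finset (Fin (m + 2))}
    (hS : S ∈ powersetCard (k - 2) (univ \ {0, 1} : Finset (Fin (m + 2)))) : Good S {1} := by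
  classical
  rw [mem_powersetCard] at hS
  obtain ⟨h1, h2⟩ := hS
  have hU : #(univ \ {0, 1} : Finset (Fin (m + 2))) = m := by
    rw [card_sdiff_of_subset (subset_univ _), card_univ, Fintype.card_fin, card_pair zne1]
    rfl
  have h3 : #((univ \ {0, 1} : Finset (Fin (m + 2))) \ S) = m - (k - 2) := by
    rw [card_sdiff_of_subset h1, hU, h2]
  have h0 : (0 : Fin (m + 2)) ∉ S := fun h => by simpa using h1 h
  have h1' : (1 : Fin (m + 2)) ∉ S := fun h => by simpa using h1 h
  have hgt : ∀ y : Fin (m + 2), y ≠ 0 → y ≠ 1 → 1 < y := by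
    intro y a b
    rw [Fin.lt_def, val1]
    have a' : (y : ℕ) ≠ 0 := fun h => a (Fin.ext h)
    have b' : (y : ℕ) ≠ 1 := fun h => b (Fin.ext (by rw [h, val1]))
    omega
  have hc : 1 < #((univ \ {0, 1} : Finset (Fin (m + 2))) \ S) := by omega
  have n0 : ¬ (1 : Fin (m + 2)) < 0 := by rw [Fin.lt_def, val1, val0]; omega
  constructor
  · intro x hx
    by_cases x0 : x = 0
    · refine ⟨1, ?_, h1', ?_⟩
      · rw [x0]; exact zne1.symm
      · intro e he
        rw [mem_singleton] at he
        rw [he, x0]
        exact ⟨fun h => absurd h n0, fun h => absurd h (lt_irrefl _)⟩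
    · by_cases x1 : x = 1
      · refine ⟨0, ?_, h0, ?_⟩
        · rw [x1]; exact zne1
        · intro e he
          rw [mem_singleton] at he
          rw [he, x1]
          exact ⟨fun h => absurd h (lt_irrefl _), fun h => absurd h n0⟩
      · obtain ⟨a, ha, b, hb, hab⟩ := one_lt_card.1 hc
        have key : ∀ y ∈ ((univ \ {0, 1} : Finset (Fin (m + 2))) \ S), y ≠ x →
            ∃ y, y ≠ x ∧ y ∉ S ∧ ∀ e ∈ ({1} : Finset (Fin (m + 2))), (e < x ↔ e < y) := by
          intro y hy hyx
          rw [mem_sdiff, mem_sdiff] at hy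
          obtain ⟨⟨-, hy1⟩, hy2⟩ := hy
          simp only [mem_insert, mem_singleton, not_or] at hy1
          refine ⟨y, hyx, hy2, ?_⟩
          intro e he
          rw [mem_singleton] at he
          rw [he]
          exact ⟨fun _ => hgt y hy1.1 hy1.2, fun _ => hgt x x0 x1⟩
        by_cases hax : a = x
        · exact key b hb (fun h => hab (hax.trans h.symm))
        · exact key a ha hax
  · intro e he
    rw [mem_singleton] at he
    subst he
    refine ⟨h1', ?_⟩
    obtain ⟨a, ha, -⟩ := one_lt_card.1 hc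
    rw [mem_sdiff, mem_sdiff] at ha
    obtain ⟨⟨-, hy1⟩, hy2⟩ := ha
    simp only [mem_insert, mem_singleton, not_or] at hy1
    exact ⟨a, hgt a hy1.1 hy1.2, hy2⟩

theorem fpos_small {l : ℕ} (hh : 0 < h) (hl : l < 2) : fpos h l = l := by
  unfold fpos phi
  rw [if_pos (by omega)]
  omega

theorem fpos_big {l : ℕ} (hl : 2 ≤ l) (hl' : l < 10 * h) : 2 ≤ fpos h l := by
  unfold fpos phi
  split_ifs <;> omega

theorem conv_RS {S : Finset (Fin (m + 2))} : Conv (sg m h hm) (R S {1}) := by
  intro i j l hil hlj hij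
  by_cases hl : l ∈ S
  · right
    rintro x (rfl | ⟨h1, -, -⟩)
    · rfl
    · exact absurd hl h1
  · left
    rcases hij with rfl | ⟨h1, h2, h3⟩
    · exact absurd (hil.trans hlj) (lt_irrefl _)
    · refine Or.inr ⟨h1, hl, ?_⟩
      intro e he
      have h4 := h3 e he
      rw [mem_singleton] at he
      subst he
      rw [Fin.lt_def, Fin.lt_def, val1] at h4
      rw [Fin.lt_def, Fin.lt_def, val1]
      rw [Fin.lt_def] at hil hlj
      have hil' : fpos h i < fpos h l := hil
      have hlj' : fpos h l < fpos h j := hlj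
      have hi := i.2
      have hj := j.2
      have hll := l.2
      have hh : 0 < h := by omega
      constructor
      · intro h5
        by_contra h6
        rw [fpos_small hh (l := l) (by omega)] at hil'
        have := fpos_big (h := h) (l := i) (by omega) (by omega)
        omega
      · intro h5
        by_contra h6
        have h7 : (j : ℕ) < 2 := by
          by_contra h8
          exact h6 (h4.2 (by omega))
        rw [fpos_small hh h7] at hlj'
        have := fpos_big (h := h) (l := l) (by omega) (by omega)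
        omega

theorem lowA {k : ℕ} (hk : 2 ≤ k) (hk' : k ≤ m) :
    m.choose (k - 2) ≤ (NTset (h := h) hm k).ncard := by
  classical
  have hU : #(univ \ {0, 1} : Finset (Fin (m + 2))) = m := by
    rw [card_sdiff_of_subset (subset_univ _), card_univ, Fintype.card_fin, card_pair zne1]
    rfl
  have h1 : m.choose (k - 2) =
      #(powersetCard (k - 2) (univ \ {0, 1} : Finset (Fin (m + 2)))) := by
    rw [card_powersetCard, hU]
  rw [h1, ← Set.ncard_coe_finset]
  apply Set.ncard_le_ncard_of_injOn (fun S => R S {1}) (ht := fin_setoid _ _)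
  · intro S hS
    rw [mem_coe] at hS
    have hG := goodS hk hk' hS
    have hSc := (mem_powersetCard.1 hS).2
    refine ⟨conv_R_of_fixed 1 (fun _ _ => rfl), conv_RS hm, ?_, nonTrivial_R hG ⟨1, by simp⟩⟩
    rw [card_quot' _ ⟨1, by rw [sing_R hG]; exact (hG.2 1 (by simp)).1⟩, sing_R hG, ends_R hG,
      hSc, card_singleton]
    omega
  · intro S hS S' hS' hSS
    rw [mem_coe] at hS hS'
    have hSS' : R S {1} = R S' {1} := hSS
    rw [← sing_R (goodS hk hk' hS), ← sing_R (goodS hk hk' hS'), hSS']

end Pool.Agent.H78.Uni
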