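import Pool.Agent.H78.Uni.LowA

set_option autoImplicit false

namespace Pool.Agent.H78.Uni
open Finset Pool.Agent.R935.Phylo

/-- `g` maps each element of `Fin 5` to the maximum of its class in a convex partition. -/
def goodG (g : Fin 5 → Fin 5) : Prop :=
  (∀ o, o ≤ g o) ∧ (∀ o, g (g o) = g o) ∧
  (∀ p q r : Fin 5, p < q → q < r → g p = g r → g q = g p ∨ ∀ s, g s = g q → s = q)

instance (g) : Decidable (goodG g) := by unfold goodG; infer_instance

def LC : Finset (Fin 5 → Fin 5) := univ.filter goodG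
def wL (g : Fin 5 → Fin 5) : ℕ := ∏ o, (if g o = o then 1 else 2)
def c4 : Fin 5 → Fin 5 := fun _ => 4

theorem cardLC : #LC = 34 := by decide +kernel
theorem sumLC : ∑ g ∈ LC, wL g = 153 := by decide +kernel
theorem c4_mem : c4 ∈ LC := by decide +kernel
theorem wc4 : wL c4 ≤ 153 := by decide +kernel

variable {m h : ℕ} (hm : m + 2 = 10 * h)

/-- the representative of `l`. -/
def rep (f : Fin (2 * h) → Fin 5 → Fin 5) (l : Fin (m + 2)) : Fin (m + 2) :=
  lf hm ((bo hm).symm l).1 (f ((bo hm).symm l).1 ((bo hm).symm l).2)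

/-- the partition with local pieces `f`. -/
def Pf (f : Fin (2 * h) → Fin 5 → Fin 5) : Setoid (Fin (m + 2)) := Setoid.ker (rep hm f)

theorem rep_lf (f : Fin (2 * h) → Fin 5 → Fin 5) (b : Fin (2 * h)) (o : Fin 5) :
    (rep hm f (lf hm b o) : Fin (m + 2)) = lf hm b (f b o) := by
  unfold rep
  have : (bo hm).symm (lf hm b o) = (b, o) := (bo hm).symm_apply_apply (b, o)
  rw [this]

theorem lf_inj {b b' : Fin (2 * h)} {o o' : Fin 5} :
    (lf hm b o : Fin (m + 2)) = lf hm b' o' ↔ b = b' ∧ o = o' := by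
  constructor
  · intro h1
    have h2 : (bo hm) (b, o) = (bo hm) (b', o') := h1
    have := (bo hm).injective h2
    simpa using this
  · rintro ⟨rfl, rfl⟩; rfl

theorem Pf_lf {f : Fin (2 * h) → Fin 5 → Fin 5} {b b' : Fin (2 * h)} {o o' : Fin 5} :
    (Pf hm f : Setoid (Fin (m + 2))) (lf hm b o) (lf hm b' o') ↔ b = b' ∧ f b o = f b' o' := by
  show rep hm f (lf hm b o) = rep hm f (lf hm b' o') ↔ _
  rw [rep_lf, rep_lf, lf_inj]

theorem all_lf (l : Fin (m + 2)) : ∃ b o, (lf hm b o : Fin (m + 2)) = l :=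
  ⟨_, _, (bo hm).right_inv l⟩

/-- local pieces give convex partitions for any order respecting blocks. -/
theorem conv_Pf {f : Fin (2 * h) → Fin 5 → Fin 5} (hf : ∀ b, goodG (f b))
    (τ : Equiv.Perm (Fin (m + 2)))
    (hτ : ∀ (b : Fin (2 * h)) (o o' : Fin 5) (l : Fin (m + 2)), τ (lf hm b o) < τ l →
      τ l < τ (lf hm b o') → ∃ o'', l = lf hm b o'' ∧ o < o'' ∧ o'' < o') :
    Conv τ (Pf hm f) := by
  intro i j l hil hlj hij
  obtain ⟨b, o, rfl⟩ := all_lf hm i
  obtain ⟨b', o', rfl⟩ := all_lf hm j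
  obtain ⟨rfl, he⟩ := (Pf_lf hm).1 hij
  obtain ⟨o'', rfl, h1, h2⟩ := hτ b o o' l hil hlj
  rcases (hf b).2.2 o o'' o' h1 h2 he with h3 | h3
  · left
    rw [Pf_lf]
    exact ⟨rfl, h3.symm⟩
  · right
    intro x hx
    obtain ⟨b1, o1, rfl⟩ := all_lf hm x
    obtain ⟨rfl, he1⟩ := (Pf_lf hm).1 hx
    rw [h3 o1 he1.symm]

theorem conv_one {f : Fin (2 * h) → Fin 5 → Fin 5} (hf : ∀ b, goodG (f b)) :
    Conv 1 (Pf hm f : Setoid (Fin (m + 2))) := by
  apply conv_Pf hm hf
  intro b o o' l h1 h2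
  have h1' : (lf hm b o : Fin (m + 2)) < l := h1
  have h2' : l < lf hm b o' := h2
  obtain ⟨b1, o1, rfl⟩ := all_lf hm l
  rw [Fin.lt_def, lf_val, lf_val] at h1' h2'
  have := o.2; have := o'.2; have := o1.2
  have : b1 = b := by ext; omega
  subst this
  exact ⟨o1, rfl, by rw [Fin.lt_def]; omega, by rw [Fin.lt_def]; omega⟩

theorem conv_sg {f : Fin (2 * h) → Fin 5 → Fin 5} (hf : ∀ b, goodG (f b)) :
    Conv (sg m h hm) (Pf hm f : Setoid (Fin (m + 2))) := by
  apply conv_Pf hm hf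
  intro b o o' l h1 h2
  obtain ⟨b1, o1, rfl⟩ := all_lf hm l
  rw [Fin.lt_def] at h1 h2
  have h1' : fpos h (lf hm b o : Fin (m + 2)) < fpos h (lf hm b1 o1 : Fin (m + 2)) := h1
  have h2' : fpos h (lf hm b1 o1 : Fin (m + 2)) < fpos h (lf hm b o' : Fin (m + 2)) := h2
  unfold fpos at h1' h2'
  rw [lf_div, lf_div, lf_mod, lf_mod] at h1' h2'
  have := o.2; have := o'.2; have := o1.2
  have h3 : phi h b1 = phi h b := by omega
  have h4 : (b1 : ℕ) = b := by rw [← psi_phi b1.2, ← psi_phi b.2, h3]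
  have : b1 = b := Fin.ext h4
  subst this
  exact ⟨o1, rfl, by rw [Fin.lt_def]; omega, by rw [Fin.lt_def]; omega⟩

theorem mx_Pf {f : Fin (2 * h) → Fin 5 → Fin 5} (hf : ∀ b, goodG (f b)) (b : Fin (2 * h))
    (o : Fin 5) : Mx (Pf hm f : Setoid (Fin (m + 2))) (lf hm b o) ↔ f b o = o := by
  constructor
  · intro h1
    have h2 : (Pf hm f : Setoid (Fin (m + 2))) (lf hm b o) (lf hm b (f b o)) := by
      rw [Pf_lf]; exact ⟨rfl, ((hf b).2.1 o).symm⟩
    have h3 := h1 _ h2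
    have h4 := (hf b).1 o
    rw [Fin.le_def, lf_val, lf_val] at h3
    rw [Fin.le_def] at h4
    ext; omega
  · intro h1 x hx
    obtain ⟨b1, o1, rfl⟩ := all_lf hm x
    obtain ⟨rfl, he⟩ := (Pf_lf hm).1 hx
    have h4 := (hf b).1 o1
    rw [← he, h1] at h4
    rw [Fin.le_def, lf_val, lf_val]
    rw [Fin.le_def] at h4
    omega

theorem weight_Pf {f : Fin (2 * h) → Fin 5 → Fin 5} (hf : ∀ b, goodG (f b)) :
    ∏ b, wL (f b) = 2 ^ (m + 2 - Nat.card (Quotient (Pf hm f : Setoid (Fin (m + 2))))) := by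
  classical
  have h1 := prod_weight (Pf hm f : Setoid (Fin (m + 2))) (![1, 1, 2] : Fin 3 → ℕ) 1 2 rfl rfl rfl
  rw [one_pow, one_mul] at h1
  rw [← h1, ← prod_bc hm]
  apply prod_congr rfl
  intro b _
  unfold wL
  apply prod_congr rfl
  intro o _
  have h2 := mx_Pf hm hf b o
  unfold bc
  by_cases h3 : f b o = o
  · rw [if_pos h3]
    have h4 : code (Pf hm f : Setoid (Fin (m + 2))) (lf hm b o) ≠ 2 := fun h5 =>
      code_two.1 h5 (h2.2 h3)
    generalize code (Pf hm f : Setoid (Fin (m + 2))) (lf hm b o) = c at h4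
    fin_cases c
    · rfl
    · rfl
    · exact absurd rfl h4
  · rw [if_neg h3]
    have h4 : code (Pf hm f : Setoid (Fin (m + 2))) (lf hm b o) = 2 :=
      code_two.2 (fun h5 => h3 (h2.1 h5))
    rw [h4]; rfl

theorem Pf_inj {f f' : Fin (2 * h) → Fin 5 → Fin 5} (hf : ∀ b, goodG (f b))
    (hf' : ∀ b, goodG (f' b)) (he : (Pf hm f : Setoid (Fin (m + 2))) = Pf hm f') : f = f' := by
  funext b o
  have h1 : (Pf hm f : Setoid (Fin (m + 2))) (lf hm b o) (lf hm b (f b o)) := by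
    rw [Pf_lf]; exact ⟨rfl, ((hf b).2.1 o).symm⟩
  have h2 : (Pf hm f' : Setoid (Fin (m + 2))) (lf hm b o) (lf hm b (f' b o)) := by
    rw [Pf_lf]; exact ⟨rfl, ((hf' b).2.1 o).symm⟩
  have h3 : f b (f' b o) = f b o := by
    rw [← he, Pf_lf] at h2; exact h2.2.symm
  have h4 : f' b (f b o) = f' b o := by
    rw [he, Pf_lf] at h1; exact h1.2.symm
  have h5 := (hf b).1 (f' b o)
  have h6 := (hf' b).1 (f b o)
  rw [h3] at h5
  rw [h4] at h6
  exact le_antisymm h6 h5

/-- the family of local choices. -/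
def F0 (h : ℕ) : Finset (Fin (2 * h) → Fin 5 → Fin 5) :=
  Fintype.piFinset (fun b => if (b : ℕ) < 2 then {c4} else LC)

theorem good_of_F0 {f : Fin (2 * h) → Fin 5 → Fin 5} (hf : f ∈ F0 h) (b) : goodG (f b) := by
  unfold F0 at hf
  rw [Fintype.mem_piFinset] at hf
  have h1 := hf b
  have h2 : f b ∈ LC := by
    split_ifs at h1 with h3
    · rw [mem_singleton] at h1; rw [h1]; exact c4_mem
    · exact h1
  unfold LC at h2
  exact (mem_filter.1 h2).2

theorem card_F0 (hh : 0 < h) : 34 ^ (2 * h - 2) ≤ #(F0 h) := by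
  classical
  unfold F0
  rw [Fintype.card_piFinset]
  have h1 : ∀ b : Fin (2 * h), #(if (b : ℕ) < 2 then ({c4} : Finset (Fin 5 → Fin 5)) else LC) =
      if (b : ℕ) < 2 then 1 else 34 := by
    intro b
    split_ifs
    · exact card_singleton _
    · exact cardLC
  rw [prod_congr rfl (fun b _ => h1 b), prod_ite, prod_const_one, one_mul, prod_const]
  apply Nat.pow_le_pow_right (by norm_num)
  have h2 := card_filter_add_card_filter_not (s := (univ : Finset (Fin (2 * h))))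
    (fun b => (b : ℕ) < 2)
  rw [card_univ, Fintype.card_fin] at h2
  have h3 : #(univ.filter fun b : Fin (2 * h) => (b : ℕ) < 2) ≤ #(range 2) := by
    refine card_le_card_of_injOn (fun b : Fin (2 * h) => (b : ℕ)) ?_ ?_
    · intro b hb
      rw [mem_coe, mem_filter] at hb
      rw [mem_coe, mem_range]
      exact hb.2
    · intro a _ b _ hab
      exact Fin.ext hab
  rw [card_range] at h3
  omega

theorem sum_F0 : ∑ f ∈ F0 h, ∏ b, wL (f b) ≤ 153 ^ (2 * h) := by
  unfold F0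
  rw [← Finset.prod_univ_sum]
  calc _ ≤ ∏ _b : Fin (2 * h), 153 := by
        apply prod_le_prod (fun _ _ => Nat.zero_le _)
        intro b _
        split_ifs
        · rw [sum_singleton]; exact wc4
        · exact sumLC.le
    _ = _ := by rw [prod_const, card_univ, Fintype.card_fin]

theorem nt_Pf (hh : 0 < h) {f : Fin (2 * h) → Fin 5 → Fin 5} (hf : f ∈ F0 h) :
    NonTrivial (Pf hm f : Setoid (Fin (m + 2))) := by
  unfold F0 at hf
  rw [Fintype.mem_piFinset] at hf
  have b0 : (0 : ℕ) < 2 * h := by omega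
  have b1 : (1 : ℕ) < 2 * h := by omega
  have e0 := hf ⟨0, b0⟩
  have e1 := hf ⟨1, b1⟩
  simp only [Nat.ofNat_pos, if_true, mem_singleton] at e0
  have h12 : (1 : ℕ) < 2 := by norm_num
  simp only [if_pos h12, mem_singleton] at e1
  refine ⟨lf hm ⟨0, b0⟩ 0, lf hm ⟨0, b0⟩ 1, lf hm ⟨1, b1⟩ 0, lf hm ⟨1, b1⟩ 1, ?_, ?_, ?_, ?_, ?_⟩
  · rw [Pf_lf, e0]; exact ⟨rfl, rfl⟩
  · rw [Ne, lf_inj]; simp
  · rw [Pf_lf, e1]; exact ⟨rfl, rfl⟩
  · rw [Ne, lf_inj]; simp
  · rw [Pf_lf]; simp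

theorem card_le_n (P : Setoid (Fin (m + 2))) : Nat.card (Quotient P) ≤ m + 2 := by
  classical
  rw [card_quot]
  exact (card_le_univ _).trans_eq (Fintype.card_fin _)

/-- if all counts beyond `K` are at most `B`, the number of local partitions is small. -/
theorem lowB (hh : 0 < h) (K B : ℕ) (hK : K ≤ m + 2)
    (hB : ∀ k, K < k → k ≤ m + 2 → (NTset (h := h) hm k).ncard ≤ B) :
    34 ^ (2 * h - 2) * 2 ^ (m + 2 - K) ≤ 153 ^ (2 * h) + (m + 2) * B * 2 ^ (m + 2 - K) := by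
  classical
  set kf : (Fin (2 * h) → Fin 5 → Fin 5) → ℕ :=
    fun f => Nat.card (Quotient (Pf hm f : Setoid (Fin (m + 2)))) with hkf
  have h1 := card_filter_add_card_filter_not (s := F0 h) (fun f => kf f ≤ K)
  have h2 : #((F0 h).filter fun f => kf f ≤ K) * 2 ^ (m + 2 - K) ≤ 153 ^ (2 * h) := by
    calc #((F0 h).filter fun f => kf f ≤ K) * 2 ^ (m + 2 - K)
        = ∑ f ∈ (F0 h).filter (fun f => kf f ≤ K), 2 ^ (m + 2 - K) := by
          rw [sum_const, smul_eq_mul]
      _ ≤ ∑ f ∈ (F0 h).filter (fun f => kf f ≤ K), ∏ b, wL (f b) := by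
          apply sum_le_sum
          intro f hf
          rw [mem_filter] at hf
          rw [weight_Pf hm (good_of_F0 hf.1)]
          apply Nat.pow_le_pow_right (by norm_num)
          have : kf f ≤ K := hf.2
          rw [hkf] at this
          simp only at this
          omega
      _ ≤ ∑ f ∈ F0 h, ∏ b, wL (f b) :=
          sum_le_sum_of_subset (filter_subset _ _)
      _ ≤ _ := sum_F0
  have h3 : #((F0 h).filter fun f => ¬ kf f ≤ K) ≤ (m + 2) * B := by
    have hmap : ∀ f ∈ (F0 h).filter (fun f => ¬ kf f ≤ K), kf f ∈ Ioc K (m + 2) := by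
      intro f hf
      rw [mem_filter] at hf
      rw [mem_Ioc]
      exact ⟨not_le.1 hf.2, card_le_n _⟩
    rw [card_eq_sum_card_fiberwise hmap]
    calc _ ≤ ∑ _k ∈ Ioc K (m + 2), B := by
          apply sum_le_sum
          intro k hk
          rw [mem_Ioc] at hk
          refine le_trans ?_ (hB k hk.1 hk.2)
          rw [← Set.ncard_coe_finset]
          apply Set.ncard_le_ncard_of_injOn (fun f => Pf hm f) (ht := fin_setoid _ _)
          · intro f hf
            rw [mem_coe, mem_filter, mem_filter] at hf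
            exact ⟨conv_one hm (good_of_F0 hf.1.1), conv_sg hm (good_of_F0 hf.1.1), hf.2,
              nt_Pf hm hh hf.1.1⟩
          · intro f hf f' hf' hff
            rw [mem_coe, mem_filter, mem_filter] at hf hf'
            exact Pf_inj hm (good_of_F0 hf.1.1) (good_of_F0 hf'.1.1) hff
      _ = (m + 2 - K) * B := by rw [sum_const, Nat.card_Ioc, smul_eq_mul]
      _ ≤ _ := Nat.mul_le_mul_right _ (Nat.sub_le _ _)
  have h4 := card_F0 hh
  calc 34 ^ (2 * h - 2) * 2 ^ (m + 2 - K) ≤ #(F0 h) * 2 ^ (m + 2 - K) :=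
        Nat.mul_le_mul_right _ h4
    _ = #((F0 h).filter fun f => kf f ≤ K) * 2 ^ (m + 2 - K) +
        #((F0 h).filter fun f => ¬ kf f ≤ K) * 2 ^ (m + 2 - K) := by rw [← add_mul, h1]
    _ ≤ _ := Nat.add_le_add h2 (Nat.mul_le_mul_right _ h3)

end Pool.Agent.H78.Uni
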